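import Pool.Agent.Lib.MP_39c2b7_co.H83.LinkAux

/-!
The link theorem (module LINK).
-/

set_option autoImplicit false

namespace StrongArb.H83

open SimpleGraph

variable {V : Type}

/-- a vertex whose neighbours lie in a small clique is cut off -/
theorem no_clique_nbhd [Finite V] (G : SimpleGraph V) (hcard : 5 ≤ Nat.card V)
    (hC : ∀ S : Set V, S.ncard ≤ 3 → G.IsClique S → (G.induce Sᶜ).Preconnected)
    (v : V) (S : Set V) (hS : S.ncard ≤ 3) (hcl : G.IsClique S) (hv : v ∉ S)
    (hN : ∀ x, G.Adj v x → x ∈ S) : False := by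
  have h1 : ∃ u, u ∉ S ∧ u ≠ v := by
    by_contra hcon
    push Not at hcon
    have h2 : (Set.univ : Set V) ⊆ insert v S := by
      intro u _
      by_cases hu : u ∈ S
      · exact Or.inr hu
      · exact Or.inl (hcon u hu)
    have h3 := Set.ncard_le_ncard h2 (Set.toFinite _)
    rw [Set.ncard_univ] at h3
    have h4 := Set.ncard_insert_le v S
    omega
  obtain ⟨u, huS, huv⟩ := h1
  obtain ⟨p⟩ := hC S hS hcl ⟨v, hv⟩ ⟨u, huS⟩
  obtain ⟨d, -, hd1, hd2⟩ := p.exists_boundary_dart {z | (z : V) = v} rfl huv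
  have hadj : G.Adj (d.fst : V) (d.snd : V) := d.adj
  simp only [Set.mem_ofPred_eq] at hd1
  rw [hd1] at hadj
  exact d.snd.2 (hN _ hadj)

/-- What the dual says about the edges at `v`. -/
structure StarData (G : SimpleGraph V) (v : V) {W : Type} (E : V → W → Prop) : Prop where
  two : ∀ x, G.Adj v x → ∃ w1 w2, w1 ≠ w2 ∧ ∀ w, E x w ↔ w = w1 ∨ w = w2
  cut : ∀ X : Set V, (∀ x ∈ X, G.Adj v x) → (∀ w, Even ({x | x ∈ X ∧ E x w} : Set V).ncard) →
    X = ∅ ∨ ∀ y, G.Adj v y → y ∈ X
  even : ∀ w, Even ({x | G.Adj v x ∧ E x w} : Set V).ncard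
  adj : ∀ x y w, x ≠ y → G.Adj v x → G.Adj v y → E x w → E y w → G.Adj x y

theorem starData (hsplit : DualSplitStatement) [Finite V] (G : SimpleGraph V)
    (hcard : 5 ≤ Nat.card V)
    (hmax : ∀ x y, x ≠ y → ¬ G.Adj x y → ¬ HasDual (G ⊔ SimpleGraph.fromEdgeSet {s(x, y)}))
    (hC : ∀ S : Set V, S.ncard ≤ 3 → G.IsClique S → (G.induce Sᶜ).Preconnected)
    {W : Type} [Finite W] (ends : Sym2 V → W × W) (hd : IsDual G ends) (v : V) :
    StarData G v (fun x w => (ends s(v, x)).1 = w ∨ (ends s(v, x)).2 = w) := by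
  have hpre : (G.induce ({v} : Set V)ᶜ).Preconnected :=
    hC {v} (by rw [Set.ncard_singleton]; omega) (by simp)
  -- two distinct ends
  have hends : ∀ x, G.Adj v x → (ends s(v, x)).1 ≠ (ends s(v, x)).2 := by
    intro x hx heq
    have h1 : ∃ y, G.Adj v y ∧ x ≠ y := by
      by_contra hcon
      push Not at hcon
      exact no_clique_nbhd G hcard hC v {x} (by rw [Set.ncard_singleton]; omega) (by simp)
        (fun h => hx.ne h) (fun y hy => (hcon y hy).symm)
    obtain ⟨y, hy, hxy⟩ := h1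
    obtain ⟨F, hF, hFv⟩ := exists_even G v x y hpre hx hy hxy
    obtain ⟨S, hS⟩ := (hd F).1 hF
    have h2 := ((hS s(v, x)).1 ((hFv x).2 (Or.inl rfl))).2
    rw [heq] at h2
    exact h2 Iff.rfl
  have hone : ∀ x w, G.Adj v x → (¬ ((ends s(v, x)).1 = w ↔ (ends s(v, x)).2 = w) ↔
      ((ends s(v, x)).1 = w ∨ (ends s(v, x)).2 = w)) := by
    intro x w hx
    have h1 := hends x hx
    constructor
    · intro h
      by_contra hcon
      push Not at hcon
      exact h ⟨fun h3 => absurd h3 hcon.1, fun h3 => absurd h3 hcon.2⟩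
    · rintro (h | h) h2
      · exact h1 (h.trans (h2.1 h).symm)
      · exact h1 ((h2.2 h).trans h.symm)
  refine ⟨fun x hx => ⟨_, _, hends x hx, fun w => ?_⟩, fun X hX hev => ?_, fun w => ?_,
    fun x y w hxy hx hy hxw hyw => ?_⟩
  · exact or_congr eq_comm eq_comm
  · refine star_cut G v hpre X hX fun F hF => dual_parity G ends hd v X hX (fun w => ?_) F hF
    have h1 : ({x | x ∈ X ∧ ¬ ((ends s(v, x)).1 = w ↔ (ends s(v, x)).2 = w)} : Set V) =
        {x | x ∈ X ∧ ((ends s(v, x)).1 = w ∨ (ends s(v, x)).2 = w)} := by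
      ext x
      exact and_congr_right fun hx => hone x w (hX x hx)
    rw [h1]
    exact hev w
  · have h1 : EvenSet G {e | e ∈ G.edgeSet ∧
        ¬ ((ends e).1 ∈ ({w} : Set W) ↔ (ends e).2 ∈ ({w} : Set W))} :=
      (hd _).2 ⟨{w}, fun e => Iff.rfl⟩
    have h2 := h1.2 v
    have hinj : Function.Injective (fun x : V => s(v, x)) := fun x y h => Sym2.congr_right.1 h
    have h3 : ({e | e ∈ {e | e ∈ G.edgeSet ∧
        ¬ ((ends e).1 ∈ ({w} : Set W) ↔ (ends e).2 ∈ ({w} : Set W))} ∧ v ∈ e} : Set (Sym2 V)) =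
        (fun x : V => s(v, x)) '' {x | G.Adj v x ∧
          ((ends s(v, x)).1 = w ∨ (ends s(v, x)).2 = w)} := by
      ext e
      simp only [Set.mem_ofPred_eq, Set.mem_image, Set.mem_singleton_iff]
      constructor
      · rintro ⟨⟨he, hw⟩, hve⟩
        obtain ⟨x, rfl⟩ := Sym2.mem_iff_exists.1 hve
        rw [SimpleGraph.mem_edgeSet] at he
        exact ⟨x, ⟨he, (hone x w he).1 hw⟩, rfl⟩
      · rintro ⟨x, ⟨hx, hw⟩, rfl⟩
        exact ⟨⟨hx, (hone x w hx).2 hw⟩, Sym2.mem_mk_left _ _⟩
    rw [h3, Set.ncard_image_of_injective _ hinj] at h2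
    exact h2
  · by_contra hno
    exact hmax x y hxy hno (hsplit V G W ends hd v x y w hxy hx hy hno hxw hyw)

/-- neighbours of `v` whose edges share a face -/
def R (G : SimpleGraph V) (v : V) {W : Type} (E : V → W → Prop) : SimpleGraph V where
  Adj x y := x ≠ y ∧ G.Adj v x ∧ G.Adj v y ∧ ∃ w, E x w ∧ E y w
  symm := ⟨fun _ _ h => ⟨h.1.symm, h.2.2.1, h.2.1, by
    obtain ⟨w, hx, hy⟩ := h.2.2.2
    exact ⟨w, hy, hx⟩⟩⟩
  loopless := ⟨fun _ h => h.1 rfl⟩

section
variable [Finite V] {G : SimpleGraph V} {v : V} {W : Type} {E : V → W → Prop}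

/-- a face at `v` has exactly two edges at `v` -/
theorem partner (hs : StarData G v E) (hK : ¬ HasK5Minor G) {x : V} {w : W} (hx : G.Adj v x)
    (hxw : E x w) : ∃ y, y ≠ x ∧ {z | G.Adj v z ∧ E z w} = {x, y} := by
  have hev := hs.even w
  have hpos : 0 < ({z | G.Adj v z ∧ E z w} : Set V).ncard :=
    (Set.ncard_pos (Set.toFinite _)).2 ⟨x, hx, hxw⟩
  have hle : ({z | G.Adj v z ∧ E z w} : Set V).ncard ≤ 3 := by
    by_contra hgt
    push Not at hgt
    obtain ⟨a, b, c, ha, hb, hc, hab, hac, hbc⟩ := (Set.two_lt_ncard_iff (Set.toFinite _)).1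
      (show 2 < ({z | G.Adj v z ∧ E z w} : Set V).ncard by omega)
    have h3 : ({a, b, c} : Set V).ncard ≤ 3 := by
      have h4 := Set.ncard_insert_le a {b, c}
      have h5 := Set.ncard_insert_le b {c}
      rw [Set.ncard_singleton] at h5
      omega
    obtain ⟨d, hd, hd'⟩ := Set.exists_mem_notMem_of_ncard_lt_ncard (lt_of_le_of_lt h3 hgt)
      (Set.toFinite _)
    simp only [Set.mem_insert_iff, Set.mem_singleton_iff, not_or] at hd'
    have hadj : ∀ x ∈ {z | G.Adj v z ∧ E z w}, ∀ y ∈ {z | G.Adj v z ∧ E z w}, x ≠ y →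
        G.Adj x y := fun x hx y hy hxy => hs.adj x y w hxy hx.1 hy.1 hx.2 hy.2
    exact hK (k5_of_clique G v a b c d ha.1 hb.1 hc.1 hd.1 (hadj a ha b hb hab)
      (hadj a ha c hc hac) (hadj a ha d hd (Ne.symm hd'.1)) (hadj b hb c hc hbc)
      (hadj b hb d hd (Ne.symm hd'.2.1)) (hadj c hc d hd (Ne.symm hd'.2.2)))
  have h2 : ({z | G.Adj v z ∧ E z w} : Set V).ncard = 2 := by
    obtain ⟨k, hk⟩ := hev
    omega
  obtain ⟨a, b, hab, hS⟩ := Set.ncard_eq_two.1 h2
  have hxm : x ∈ ({a, b} : Set V) := by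
    rw [← hS]; exact ⟨hx, hxw⟩
  rcases hxm with rfl | hxb
  · exact ⟨b, hab.symm, hS⟩
  · rw [Set.mem_singleton_iff] at hxb
    subst hxb
    exact ⟨a, hab, by rw [hS, Set.pair_comm]⟩

/-- every neighbour of `v` has exactly two `R`-neighbours -/
theorem r_two (hs : StarData G v E) (hK : ¬ HasK5Minor G) (hcard : 5 ≤ Nat.card V)
    (hC : ∀ S : Set V, S.ncard ≤ 3 → G.IsClique S → (G.induce Sᶜ).Preconnected)
    {x : V} (hx : G.Adj v x) :
    ∃ y1 y2, y1 ≠ y2 ∧ (R G v E).neighborSet x = {y1, y2} := by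
  obtain ⟨w1, w2, hw, hxw⟩ := hs.two x hx
  obtain ⟨y1, hy1, hN1⟩ := partner hs hK hx ((hxw w1).2 (Or.inl rfl))
  obtain ⟨y2, hy2, hN2⟩ := partner hs hK hx ((hxw w2).2 (Or.inr rfl))
  have hm1 : G.Adj v y1 ∧ E y1 w1 := by
    have : y1 ∈ ({x, y1} : Set V) := by simp
    rw [← hN1] at this
    exact this
  have hm2 : G.Adj v y2 ∧ E y2 w2 := by
    have : y2 ∈ ({x, y2} : Set V) := by simp
    rw [← hN2] at this
    exact this
  refine ⟨y1, y2, ?_, ?_⟩
  · rintro rfl
    -- both faces are shared: `{x, y1}` would be a cut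
    have h1 : ∀ w, E y1 w ↔ w = w1 ∨ w = w2 := by
      obtain ⟨a, b, hab, hE⟩ := hs.two y1 hm1.1
      have e1 := (hE w1).1 hm1.2
      have e2 := (hE w2).1 hm2.2
      intro w
      rw [hE]
      rcases e1 with rfl | rfl <;> rcases e2 with rfl | rfl
      · exact absurd rfl hw
      · exact Iff.rfl
      · exact or_comm
      · exact absurd rfl hw
    have hset : ∀ w, Even ({z | z ∈ ({x, y1} : Set V) ∧ E z w} : Set V).ncard := by
      intro w
      by_cases h2 : w = w1 ∨ w = w2
      · have h3 : ({z | z ∈ ({x, y1} : Set V) ∧ E z w} : Set V) = {x, y1} := by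
          ext z
          constructor
          · exact fun h => h.1
          · rintro (rfl | h)
            · exact ⟨Or.inl rfl, (hxw w).2 h2⟩
            · rw [Set.mem_singleton_iff] at h
              subst h
              exact ⟨Or.inr rfl, (h1 w).2 h2⟩
        rw [h3, Set.ncard_pair hy1.symm]
        exact even_two
      · have h3 : ({z | z ∈ ({x, y1} : Set V) ∧ E z w} : Set V) = ∅ := by
          ext z
          simp only [Set.mem_ofPred_eq, Set.mem_empty_iff_false, iff_false, not_and]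
          rintro (rfl | h)
          · exact fun h4 => h2 ((hxw w).1 h4)
          · rw [Set.mem_singleton_iff] at h
            subst h
            exact fun h4 => h2 ((h1 w).1 h4)
        rw [h3, Set.ncard_empty]
        exact Even.zero
    rcases hs.cut {x, y1} (by
      rintro z (rfl | h)
      · exact hx
      · rw [Set.mem_singleton_iff] at h
        subst h
        exact hm1.1) hset with h | h
    · have : x ∈ (∅ : Set V) := by rw [← h]; exact Or.inl rfl
      exact this
    · refine no_clique_nbhd G hcard hC v {x, y1} ?_ ?_ ?_ h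
      · rw [Set.ncard_pair hy1.symm]; omega
      · have hadj : G.Adj x y1 :=
          hs.adj x y1 w1 hy1.symm hx hm1.1 ((hxw w1).2 (Or.inl rfl)) hm1.2
        intro a ha b hb hab
        rcases ha with rfl | ha <;> rcases hb with rfl | hb
        · exact absurd rfl hab
        · rw [Set.mem_singleton_iff] at hb
          subst hb
          exact hadj
        · rw [Set.mem_singleton_iff] at ha
          subst ha
          exact hadj.symm
        · rw [Set.mem_singleton_iff] at ha hb
          exact absurd (ha.trans hb.symm) hab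
      · rintro (h2 | h2)
        · exact hx.ne h2
        · exact hm1.1.ne h2
  · ext z
    simp only [mem_neighborSet, Set.mem_insert_iff, Set.mem_singleton_iff]
    constructor
    · rintro ⟨hxz, -, hz, w, hxw', hzw⟩
      rcases (hxw w).1 hxw' with rfl | rfl
      · have h3 : z ∈ ({x, y1} : Set V) := by rw [← hN1]; exact ⟨hz, hzw⟩
        rcases h3 with h3 | h3
        · exact absurd h3.symm hxz
        · exact Or.inl h3
      · have h3 : z ∈ ({x, y2} : Set V) := by rw [← hN2]; exact ⟨hz, hzw⟩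
        rcases h3 with h3 | h3
        · exact absurd h3.symm hxz
        · exact Or.inr h3
    · rintro (rfl | rfl)
      · exact ⟨hy1.symm, hx, hm1.1, w1, (hxw w1).2 (Or.inl rfl), hm1.2⟩
      · exact ⟨hy2.symm, hx, hm2.1, w2, (hxw w2).2 (Or.inr rfl), hm2.2⟩

/-- the graph `R` is connected on the neighbours of `v` -/
theorem r_conn (hs : StarData G v E) (hK : ¬ HasK5Minor G) {x : V} (hx : G.Adj v x) :
    ∀ y, G.Adj v y → (R G v E).Reachable x y := by
  have h1 := hs.cut {z | (R G v E).Reachable x z ∧ G.Adj v z} (fun z hz => hz.2) (fun w => ?_)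
  · rcases h1 with h1 | h1
    · have : x ∈ (∅ : Set V) := by rw [← h1]; exact ⟨Reachable.refl _, hx⟩
      exact absurd this (Set.notMem_empty _)
    · exact fun y hy => (h1 y hy).1
  · by_cases h2 : ∃ z, (R G v E).Reachable x z ∧ G.Adj v z ∧ E z w
    · obtain ⟨z, hxz, hz, hzw⟩ := h2
      obtain ⟨y, hyz, hN⟩ := partner hs hK hz hzw
      have h3 : ({a | a ∈ {z | (R G v E).Reachable x z ∧ G.Adj v z} ∧ E a w} : Set V) =
          {a | G.Adj v a ∧ E a w} := by
        ext a
        constructor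
        · exact fun h => ⟨h.1.2, h.2⟩
        · rintro ⟨ha, haw⟩
          refine ⟨⟨?_, ha⟩, haw⟩
          by_cases haz : a = z
          · rw [haz]; exact hxz
          · exact hxz.trans (Adj.reachable ⟨fun h => haz h.symm, hz, ha, w, hzw, haw⟩)
      rw [h3]
      exact hs.even w
    · have h3 : ({a | a ∈ {z | (R G v E).Reachable x z ∧ G.Adj v z} ∧ E a w} : Set V) = ∅ := by
        ext a
        simp only [Set.mem_ofPred_eq, Set.mem_empty_iff_false, iff_false]
        rintro ⟨⟨h4, h5⟩, h6⟩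
        exact h2 ⟨a, h4, h5, h6⟩
      rw [h3, Set.ncard_empty]
      exact Even.zero

end

/-- The neighbours in cyclic order: a function on `ℕ` read modulo `n`. -/
theorem exists_cyc [Finite V] {G : SimpleGraph V} {v : V} {W : Type} {E : V → W → Prop}
    (hs : StarData G v E) (hK : ¬ HasK5Minor G) (hcard : 5 ≤ Nat.card V)
    (hC : ∀ S : Set V, S.ncard ≤ 3 → G.IsClique S → (G.induce Sᶜ).Preconnected) :
    ∃ (n : ℕ) (f : ℕ → V), 3 ≤ n ∧ f n = f 0 ∧ (∀ i j, i < n → j < n → f i = f j → i = j) ∧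
      (∀ x, G.Adj v x ↔ ∃ i, i < n ∧ f i = x) ∧ (∀ i, i < n → (R G v E).Adj (f i) (f (i + 1))) := by
  classical
  have h0 : ∃ x, G.Adj v x := by
    by_contra hcon
    push Not at hcon
    exact no_clique_nbhd G hcard hC v ∅ (by rw [Set.ncard_empty]; omega) (by simp)
      (Set.notMem_empty _) (fun x hx => absurd hx (hcon x))
  obtain ⟨x0, hx0⟩ := h0
  have hcyc : (R G v E).IsCycles := by
    rintro x ⟨y, hy⟩
    obtain ⟨y1, y2, h1, h2⟩ := r_two hs hK hcard hC (show G.Adj v x from hy.2.1)
    rw [h2, Set.ncard_pair h1]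
  obtain ⟨y1, y2, -, h2⟩ := r_two hs hK hcard hC hx0
  obtain ⟨p, hp, hverts⟩ := hcyc.exists_cycle_toSubgraph_verts_eq_connectedComponentSupp
    (c := (R G v E).connectedComponentMk x0) (v := x0) rfl
    ⟨y1, by rw [h2]; exact Or.inl rfl⟩
  have hmem : ∀ x, G.Adj v x ↔ x ∈ p.support := by
    intro x
    rw [← Walk.mem_verts_toSubgraph, hverts, ConnectedComponent.mem_supp_iff,
      ConnectedComponent.eq]
    constructor
    · intro hx
      exact (r_conn hs hK hx0 x hx).symm
    · intro h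
      obtain ⟨q⟩ := h
      cases q with
      | nil => exact hx0
      | cons h _ => exact h.2.1
  have hlen := hp.three_le_length
  refine ⟨p.length, p.getVert, hlen, ?_, ?_, ?_, ?_⟩
  · rw [Walk.getVert_length, Walk.getVert_zero]
  · intro i j hi hj hij
    exact hp.getVert_injOn' (show i ≤ p.length - 1 by omega) (show j ≤ p.length - 1 by omega) hij
  · intro x
    rw [hmem, Walk.mem_support_iff_exists_getVert]
    constructor
    · rintro ⟨i, hi, hi'⟩
      by_cases h : i = p.length
      · refine ⟨0, by omega, ?_⟩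
        rw [Walk.getVert_zero, ← hi, h, Walk.getVert_length]
      · exact ⟨i, by omega, hi⟩
    · rintro ⟨i, hi, hi'⟩
      exact ⟨i, hi', by omega⟩
  · intro i hi
    exact p.adj_getVert_succ hi

/-- a chord of the cycle gives a minor -/
theorem no_chord [Finite V] {G : SimpleGraph V} {v : V} (hK : ¬ HasK5Minor G)
    (hC : ∀ S : Set V, S.ncard ≤ 3 → G.IsClique S → (G.induce Sᶜ).Preconnected)
    (n : ℕ) (f : ℕ → V) (hfp : ∀ i, f (i + n) = f i)
    (hinj : ∀ i j, i < j → j < i + n → f i ≠ f j)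
    (hv : ∀ i, G.Adj v (f i)) (hadj : ∀ i, G.Adj (f i) (f (i + 1)))
    (i j : ℕ) (hij : i + 2 ≤ j) (hji : j + 2 ≤ i + n) : ¬ G.Adj (f i) (f j) := by
  intro hc
  have hne : f i ≠ f j := hinj i j (by omega) (by omega)
  set S : Set V := {v, f i, f j} with hS
  have hScl : G.IsClique S := by
    rw [hS]
    intro a ha b hb hab
    simp only [Set.mem_insert_iff, Set.mem_singleton_iff] at ha hb
    rcases ha with rfl | rfl | rfl <;> rcases hb with rfl | rfl | rfl <;>
      first
      | exact absurd rfl hab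
      | exact hv _
      | exact (hv _).symm
      | exact hc
      | exact hc.symm
  have hSc : S.ncard ≤ 3 := by
    have h4 := Set.ncard_insert_le v {f i, f j}
    have h5 := Set.ncard_insert_le (f i) {f j}
    rw [Set.ncard_singleton] at h5
    rw [hS]
    omega
  set A : Set V := f '' Set.Icc (i + 1) (i + 1 + (j - i - 2)) with hA
  set B : Set V := f '' Set.Icc (j + 1) (j + 1 + (i + n - j - 2)) with hB
  have hAc : (G.induce A).Connected := conn_arc G f _ _ fun t _ _ => hadj t
  have hBc : (G.induce B).Connected := conn_arc G f _ _ fun t _ _ => hadj t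
  have hAS : A ⊆ Sᶜ := by
    rintro _ ⟨t, ht, rfl⟩
    rw [Set.mem_Icc] at ht
    rw [hS]
    simp only [Set.mem_compl_iff, Set.mem_insert_iff, Set.mem_singleton_iff, not_or]
    exact ⟨(hv t).ne', (hinj i t (by omega) (by omega)).symm, hinj t j (by omega) (by omega)⟩
  have hBS : B ⊆ Sᶜ := by
    rintro _ ⟨t, ht, rfl⟩
    rw [Set.mem_Icc] at ht
    rw [hS]
    simp only [Set.mem_compl_iff, Set.mem_insert_iff, Set.mem_singleton_iff, not_or]
    refine ⟨(hv t).ne', ?_, (hinj j t (by omega) (by omega)).symm⟩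
    rw [← hfp i]
    exact hinj t (i + n) (by omega) (by omega)
  have hAB : Disjoint A B := by
    rw [Set.disjoint_left]
    rintro _ ⟨t, ht, rfl⟩ ⟨t', ht', h⟩
    rw [Set.mem_Icc] at ht ht'
    exact hinj t t' (by omega) (by omega) h.symm
  have hAi : f (i + 1) ∈ A := ⟨i + 1, ⟨le_rfl, by omega⟩, rfl⟩
  have hAj : f (j - 1) ∈ A := ⟨j - 1, ⟨by omega, by omega⟩, rfl⟩
  have hBj : f (j + 1) ∈ B := ⟨j + 1, ⟨le_rfl, by omega⟩, rfl⟩
  have hBi : f (i + n - 1) ∈ B := ⟨i + n - 1, ⟨by omega, by omega⟩, rfl⟩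
  obtain ⟨B', hBB', hB'S, hAB', hB'c, a, ha, b, hb, hab⟩ :=
    grow G S A B (hC S hSc hScl) hAS hBS hAB ⟨_, hAi⟩ hBc
  have hadjj : G.Adj (f j) (f (j - 1)) := by
    have := hadj (j - 1)
    rw [show j - 1 + 1 = j by omega] at this
    exact this.symm
  have hadji : G.Adj (f i) (f (i + n - 1)) := by
    have := hadj (i + n - 1)
    rw [show i + n - 1 + 1 = i + n by omega, hfp] at this
    exact this.symm
  have hdisj : ∀ (x : V) (T : Set V), x ∈ S → T ⊆ Sᶜ → Disjoint ({x} : Set V) T := by
    intro x T hx hT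
    rw [Set.disjoint_singleton_left]
    exact fun h => hT h hx
  have mv : v ∈ S := by rw [hS]; simp
  have mi : f i ∈ S := by rw [hS]; simp
  have mj : f j ∈ S := by rw [hS]; simp
  exact hK (k5_of G {v} {f i} {f j} A B' (conn_singleton G _) (conn_singleton G _)
    (conn_singleton G _) hAc hB'c (by rw [Set.disjoint_singleton]; exact (hv i).ne)
    (by rw [Set.disjoint_singleton]; exact (hv j).ne) (hdisj v A mv hAS) (hdisj v B' mv hB'S)
    (by rw [Set.disjoint_singleton]; exact hne) (hdisj _ A mi hAS) (hdisj _ B' mi hB'S)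
    (hdisj _ A mj hAS) (hdisj _ B' mj hB'S) hAB'
    ⟨v, rfl, f i, rfl, hv i⟩ ⟨v, rfl, f j, rfl, hv j⟩ ⟨v, rfl, _, hAi, hv _⟩
    ⟨v, rfl, _, hBB' hBj, hv _⟩ ⟨f i, rfl, f j, rfl, hc⟩ ⟨f i, rfl, _, hAi, hadj i⟩
    ⟨f i, rfl, _, hBB' hBi, hadji⟩ ⟨f j, rfl, _, hAj, hadjj⟩ ⟨f j, rfl, _, hBB' hBj, hadj j⟩
    ⟨a, ha, b, hb, hab⟩)

theorem link (hsplit : DualSplitStatement) : LinkStatement := by
  classical
  intro V _ G _ hcard hdual hmax hC hK v
  obtain ⟨W, hW, ends, hd⟩ := hdual
  have hs := starData hsplit G hcard hmax hC ends hd v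
  obtain ⟨n, f, hn, hfn, hinj, hmem, hR⟩ := exists_cyc hs hK hcard hC
  have hRG : ∀ x y, (R G v (fun x w => (ends s(v, x)).1 = w ∨ (ends s(v, x)).2 = w)).Adj x y →
      G.Adj x y := by
    rintro x y ⟨hxy, hx, hy, w, hxw, hyw⟩
    exact hs.adj x y w hxy hx hy hxw hyw
  set g : ℕ → V := fun i => f (i % n) with hg
  have hgp : ∀ i, g (i + n) = g i := by
    intro i
    simp only [hg, Nat.add_mod_right]
  have hgm : ∀ i, g (i % n) = g i := by
    intro i
    simp only [hg, Nat.mod_mod]
  have hginj : ∀ i j, i < j → j < i + n → g i ≠ g j := by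
    intro i j hij hji h
    have h1 := hinj (i % n) (j % n) (Nat.mod_lt _ (by omega)) (Nat.mod_lt _ (by omega)) h
    have h2 : n ∣ j - i := (Nat.modEq_iff_dvd' hij.le).1 h1
    have h3 := Nat.le_of_dvd (by omega) h2
    omega
  have hgv : ∀ i, G.Adj v (g i) := fun i =>
    (hmem _).2 ⟨i % n, Nat.mod_lt _ (by omega), rfl⟩
  have hgadj : ∀ i, G.Adj (g i) (g (i + 1)) := by
    intro i
    have hr : i % n < n := Nat.mod_lt _ (by omega)
    have h1 := hRG _ _ (hR (i % n) hr)
    have h2 : g (i + 1) = f (i % n + 1) := by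
      have h3 : (i + 1) % n = (i % n + 1) % n := by simp [Nat.add_mod]
      simp only [hg, h3]
      by_cases h4 : i % n + 1 = n
      · rw [h4, Nat.mod_self, hfn]
      · rw [Nat.mod_eq_of_lt (show i % n + 1 < n by omega)]
    rw [h2]
    exact h1
  have hn4 : 4 ≤ n := by
    by_contra hlt
    have hn3 : n = 3 := by omega
    have h01 := hgadj 0
    have h12 := hgadj 1
    have h20 := hgadj 2
    have h3 : g (2 + 1) = g 0 := by
      have := hgp 0
      rw [hn3] at this
      exact this
    rw [h3] at h20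
    refine no_clique_nbhd G hcard hC v {g 0, g 1, g 2} ?_ ?_ ?_ ?_
    · have h4 := Set.ncard_insert_le (g 0) {g 1, g 2}
      have h5 := Set.ncard_insert_le (g 1) {g 2}
      rw [Set.ncard_singleton] at h5
      omega
    · intro a ha b hb hab
      simp only [Set.mem_insert_iff, Set.mem_singleton_iff] at ha hb
      rcases ha with rfl | rfl | rfl <;> rcases hb with rfl | rfl | rfl <;>
        first
        | exact absurd rfl hab
        | exact h01
        | exact h01.symm
        | exact h12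
        | exact h12.symm
        | exact h20
        | exact h20.symm
    · intro h
      simp only [Set.mem_insert_iff, Set.mem_singleton_iff] at h
      rcases h with h | h | h
      · exact (hgv 0).ne h
      · exact (hgv 1).ne h
      · exact (hgv 2).ne h
    · intro x hx
      obtain ⟨i, hi, rfl⟩ := (hmem x).1 hx
      have hgi : g i = f i := by simp only [hg, Nat.mod_eq_of_lt hi]
      rw [← hgi]
      have h6 : i = 0 ∨ i = 1 ∨ i = 2 := by omega
      rcases h6 with rfl | rfl | rfl <;> simp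
  have hch : ∀ i j, i < j → j < n → G.Adj (g i) (g j) → CycAdj n i j := by
    intro i j hij hj hadj
    by_contra hno
    unfold CycAdj at hno
    push Not at hno
    obtain ⟨h1, h2⟩ := hno
    rw [Nat.mod_eq_of_lt (show i + 1 < n by omega)] at h1
    have h3 : j + 2 ≤ i + n := by
      by_cases h4 : j + 1 = n
      · rw [h4, Nat.mod_self] at h2
        omega
      · omega
    exact no_chord hK hC n g hgp hginj hgv hgadj i j (by omega) h3 hadj
  refine ⟨(List.range n).map g, ⟨⟨?_, ?_, ?_⟩, ?_⟩⟩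
  · refine List.Nodup.map_on ?_ List.nodup_range
    intro i hi j hj hij
    rw [List.mem_range] at hi hj
    by_contra hne
    rcases Nat.lt_or_gt_of_ne hne with h | h
    · exact hginj i j h (by omega) hij
    · exact hginj j i h (by omega) hij.symm
  · rw [List.length_map, List.length_range]
    exact hn4
  · intro i j hi hj
    simp only [List.length_map, List.length_range] at hi hj
    simp only [List.getElem_map, List.getElem_range, List.length_map, List.length_range]
    constructor
    · intro hadj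
      rcases Nat.lt_trichotomy i j with h | h | h
      · exact hch i j h hj hadj
      · subst h
        exact absurd hadj (G.loopless.irrefl _)
      · have h1 := hch j i h hi hadj.symm
        exact h1.symm
    · rintro (h | h)
      · rw [h, hgm]
        exact hgadj i
      · rw [h, hgm]
        exact (hgadj j).symm
  · intro x
    rw [List.mem_map, hmem]
    constructor
    · rintro ⟨i, hi, rfl⟩
      rw [List.mem_range] at hi
      exact ⟨i % n, Nat.mod_lt _ (by omega), rfl⟩
    · rintro ⟨i, hi, rfl⟩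
      exact ⟨i, List.mem_range.2 hi, by simp only [hg, Nat.mod_eq_of_lt hi]⟩

end StrongArb.H83
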