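import Pool.Agent.Lib.MP_39c2b7_co.Interfaces

/-!
Helper lemmas for the link theorem (module LINK).
-/

set_option autoImplicit false

namespace StrongArb.H83

open SimpleGraph

variable {V : Type}

/-! ### connected sets -/

theorem conn_singleton (G : SimpleGraph V) (x : V) : (G.induce ({x} : Set V)).Connected := by
  have : Nonempty ({x} : Set V) := ⟨⟨x, rfl⟩⟩
  have : Subsingleton ({x} : Set V) := ⟨fun a b => Subtype.ext (a.2.trans b.2.symm)⟩
  exact ⟨fun a b => by rw [Subsingleton.elim a b]⟩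

theorem conn_arc (G : SimpleGraph V) (f : ℕ → V) (a m : ℕ)
    (h : ∀ t, a ≤ t → t < a + m → G.Adj (f t) (f (t + 1))) :
    (G.induce (f '' Set.Icc a (a + m))).Connected := by
  induction m with
  | zero =>
    have h1 : f '' Set.Icc a (a + 0) = {f a} := by simp
    rw [h1]
    exact conn_singleton G _
  | succ m ih =>
    have h1 := ih (fun t h1 h2 => h t h1 (by omega))
    have h2 : f '' Set.Icc a (a + (m + 1)) = f '' Set.Icc a (a + m) ∪ {f (a + m + 1)} := by
      ext x
      simp only [Set.mem_image, Set.mem_Icc, Set.mem_union, Set.mem_singleton_iff]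
      constructor
      · rintro ⟨t, ht, rfl⟩
        by_cases h3 : t = a + m + 1
        · right; rw [h3]
        · left; exact ⟨t, ⟨ht.1, by omega⟩, rfl⟩
      · rintro (⟨t, ht, rfl⟩ | rfl)
        · exact ⟨t, ⟨ht.1, by omega⟩, rfl⟩
        · exact ⟨a + m + 1, ⟨by omega, by omega⟩, rfl⟩
    rw [h2]
    exact connected_induce_union h1.preconnected (conn_singleton G _).preconnected
      (Set.mem_image_of_mem f ⟨by omega, le_rfl⟩) rfl (h (a + m) (by omega) (by omega))

/-- In a connected rest, a connected set can be enlarged until it touches `A`. -/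
theorem grow [Finite V] (G : SimpleGraph V) (S A B : Set V) (hpre : (G.induce Sᶜ).Preconnected)
    (hA : A ⊆ Sᶜ) (hB : B ⊆ Sᶜ) (hAB : Disjoint A B) (hAne : A.Nonempty)
    (hBc : (G.induce B).Connected) :
    ∃ B', B ⊆ B' ∧ B' ⊆ Sᶜ ∧ Disjoint A B' ∧ (G.induce B').Connected ∧
      ∃ a ∈ A, ∃ b ∈ B', G.Adj a b := by
  classical
  obtain ⟨B', ⟨h1, h2, h3, h4⟩, hmax⟩ := Set.exists_max_image
    {T : Set V | B ⊆ T ∧ T ⊆ Sᶜ ∧ Disjoint A T ∧ (G.induce T).Connected} Set.ncard
    (Set.toFinite _) ⟨B, Set.Subset.rfl, hB, hAB, hBc⟩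
  refine ⟨B', h1, h2, h3, h4, ?_⟩
  obtain ⟨a, ha⟩ := hAne
  obtain ⟨⟨b, hb⟩⟩ := h4.nonempty
  obtain ⟨p⟩ := hpre ⟨b, h2 hb⟩ ⟨a, hA ha⟩
  obtain ⟨d, -, hd1, hd2⟩ := p.exists_boundary_dart {z | (z : V) ∈ B'} hb
    (fun h => Set.disjoint_left.1 h3 ha h)
  have hadj : G.Adj (d.fst : V) (d.snd : V) := d.adj
  simp only [Set.mem_ofPred_eq] at hd1 hd2
  by_cases hdA : (d.snd : V) ∈ A
  · exact ⟨d.snd, hdA, d.fst, hd1, hadj.symm⟩
  · exfalso
    have h5 := hmax (B' ∪ {(d.snd : V)}) ⟨h1.trans Set.subset_union_left,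
      Set.union_subset h2 (by
        intro z hz
        rw [Set.mem_singleton_iff] at hz
        rw [hz]; exact d.snd.2), ?_, ?_⟩
    · have h6 : B'.ncard < (B' ∪ {(d.snd : V)}).ncard := by
        apply Set.ncard_lt_ncard _ (Set.toFinite _)
        refine ⟨Set.subset_union_left, fun h => hd2 (h ?_)⟩
        exact Or.inr rfl
      omega
    · rw [Set.disjoint_union_right]
      exact ⟨h3, Set.disjoint_singleton_right.2 hdA⟩
    · exact connected_induce_union h4.preconnected (conn_singleton G _).preconnected hd1 rfl hadj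

/-- five sets give a minor -/
theorem k5_of (G : SimpleGraph V) (A B C D E : Set V) (hA : (G.induce A).Connected)
    (hB : (G.induce B).Connected) (hC : (G.induce C).Connected) (hD : (G.induce D).Connected)
    (hE : (G.induce E).Connected) (dAB : Disjoint A B) (dAC : Disjoint A C) (dAD : Disjoint A D)
    (dAE : Disjoint A E) (dBC : Disjoint B C) (dBD : Disjoint B D) (dBE : Disjoint B E)
    (dCD : Disjoint C D) (dCE : Disjoint C E) (dDE : Disjoint D E)
    (aAB : ∃ u ∈ A, ∃ v ∈ B, G.Adj u v) (aAC : ∃ u ∈ A, ∃ v ∈ C, G.Adj u v)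
    (aAD : ∃ u ∈ A, ∃ v ∈ D, G.Adj u v) (aAE : ∃ u ∈ A, ∃ v ∈ E, G.Adj u v)
    (aBC : ∃ u ∈ B, ∃ v ∈ C, G.Adj u v) (aBD : ∃ u ∈ B, ∃ v ∈ D, G.Adj u v)
    (aBE : ∃ u ∈ B, ∃ v ∈ E, G.Adj u v) (aCD : ∃ u ∈ C, ∃ v ∈ D, G.Adj u v)
    (aCE : ∃ u ∈ C, ∃ v ∈ E, G.Adj u v) (aDE : ∃ u ∈ D, ∃ v ∈ E, G.Adj u v) :
    HasK5Minor G := by
  have hs : ∀ X Y : Set V, (∃ u ∈ X, ∃ v ∈ Y, G.Adj u v) → ∃ u ∈ Y, ∃ v ∈ X, G.Adj u v := by
    rintro X Y ⟨u, hu, v, hv, h⟩
    exact ⟨v, hv, u, hu, h.symm⟩
  refine ⟨![A, B, C, D, E], ?_, ?_, ?_⟩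
  · intro i
    fin_cases i
    · exact hA
    · exact hB
    · exact hC
    · exact hD
    · exact hE
  · intro i j hij
    fin_cases i <;> fin_cases j <;> first
      | exact absurd rfl hij
      | exact dAB
      | exact dAC
      | exact dAD
      | exact dAE
      | exact dBC
      | exact dBD
      | exact dBE
      | exact dCD
      | exact dCE
      | exact dDE
      | exact dAB.symm
      | exact dAC.symm
      | exact dAD.symm
      | exact dAE.symm
      | exact dBC.symm
      | exact dBD.symm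
      | exact dBE.symm
      | exact dCD.symm
      | exact dCE.symm
      | exact dDE.symm
  · intro i j hij
    fin_cases i <;> fin_cases j <;> first
      | exact absurd rfl hij
      | exact aAB
      | exact aAC
      | exact aAD
      | exact aAE
      | exact aBC
      | exact aBD
      | exact aBE
      | exact aCD
      | exact aCE
      | exact aDE
      | exact hs _ _ aAB
      | exact hs _ _ aAC
      | exact hs _ _ aAD
      | exact hs _ _ aAE
      | exact hs _ _ aBC
      | exact hs _ _ aBD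
      | exact hs _ _ aBE
      | exact hs _ _ aCD
      | exact hs _ _ aCE
      | exact hs _ _ aDE

/-- a vertex with four pairwise adjacent neighbours -/
theorem k5_of_clique (G : SimpleGraph V) (v a b c d : V) (hva : G.Adj v a) (hvb : G.Adj v b)
    (hvc : G.Adj v c) (hvd : G.Adj v d) (hab : G.Adj a b) (hac : G.Adj a c) (had : G.Adj a d)
    (hbc : G.Adj b c) (hbd : G.Adj b d) (hcd : G.Adj c d) : HasK5Minor G := by
  have hd : ∀ x y : V, G.Adj x y → Disjoint ({x} : Set V) {y} := by
    intro x y h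
    rw [Set.disjoint_singleton]
    exact h.ne
  have ha : ∀ x y : V, G.Adj x y → ∃ u ∈ ({x} : Set V), ∃ w ∈ ({y} : Set V), G.Adj u w :=
    fun x y h => ⟨x, rfl, y, rfl, h⟩
  exact k5_of G {v} {a} {b} {c} {d} (conn_singleton G _) (conn_singleton G _)
    (conn_singleton G _) (conn_singleton G _) (conn_singleton G _) (hd _ _ hva) (hd _ _ hvb)
    (hd _ _ hvc) (hd _ _ hvd) (hd _ _ hab) (hd _ _ hac) (hd _ _ had) (hd _ _ hbc) (hd _ _ hbd)
    (hd _ _ hcd) (ha _ _ hva) (ha _ _ hvb) (ha _ _ hvc) (ha _ _ hvd) (ha _ _ hab) (ha _ _ hac)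
    (ha _ _ had) (ha _ _ hbc) (ha _ _ hbd) (ha _ _ hcd)

/-! ### even sets through a vertex -/

theorem exists_path (G : SimpleGraph V) (v : V) (a b : (({v} : Set V)ᶜ : Set V))
    (q : (G.induce ({v} : Set V)ᶜ).Walk a b) :
    ∃ p : G.Walk (a : V) (b : V), p.IsPath ∧ v ∉ p.support := by
  classical
  set f : G.induce ({v} : Set V)ᶜ ↪g G := Embedding.induce _ with hf
  refine ⟨q.toPath.1.map f.toHom, q.toPath.2.map f.injective, fun h => ?_⟩
  have h' : v ∈ (q.toPath.1.map f.toHom).support := h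
  rw [Walk.support_map, List.mem_map] at h'
  obtain ⟨z, -, hz⟩ := h'
  exact z.2 hz

/-- a cycle through `v`, using exactly the edges `vx` and `vy` at `v` -/
theorem exists_even (G : SimpleGraph V) (v x y : V) (hpre : (G.induce ({v} : Set V)ᶜ).Preconnected)
    (hx : G.Adj v x) (hy : G.Adj v y) (hxy : x ≠ y) :
    ∃ F : Set (Sym2 V), EvenSet G F ∧ ∀ z, s(v, z) ∈ F ↔ z = x ∨ z = y := by
  classical
  obtain ⟨q⟩ := hpre ⟨x, fun h => hx.ne (Set.mem_singleton_iff.1 h).symm⟩
    ⟨y, fun h => hy.ne (Set.mem_singleton_iff.1 h).symm⟩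
  obtain ⟨p, hpath, hvp⟩ := exists_path G v _ _ q
  have hvpe : ∀ z, s(v, z) ∉ p.edges := fun z h => hvp (p.fst_mem_support_of_mem_edges h)
  set c : G.Walk v v := Walk.cons hx (p.concat hy.symm) with hc
  have hedges : c.edges = s(v, x) :: (p.edges ++ [s(y, v)]) := by
    rw [hc, Walk.edges_cons, Walk.edges_concat, List.concat_eq_append]
  have htrail : c.IsTrail := by
    rw [Walk.isTrail_def, hedges, List.nodup_cons]
    refine ⟨?_, ?_⟩
    · rw [List.mem_append, List.mem_singleton]
      rintro (h | h)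
      · exact hvpe _ h
      · rw [Sym2.eq_iff] at h
        rcases h with h | h
        · exact hy.ne h.1
        · exact hxy h.2
    · rw [List.nodup_append]
      refine ⟨hpath.isTrail.edges_nodup, by simp, ?_⟩
      intro a ha b hb hab
      rw [List.mem_singleton] at hb
      subst hab
      rw [hb, Sym2.eq_swap] at ha
      exact hvpe _ ha
  refine ⟨{e | e ∈ c.edges}, ⟨fun e he => c.edges_subset_edgeSet he, fun w => ?_⟩, fun z => ?_⟩
  · have h1 := htrail.even_countP_edges_iff w
    have h2 : ({e | e ∈ {e | e ∈ c.edges} ∧ w ∈ e} : Set (Sym2 V)) =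
        (((c.edges.filter (fun e => decide (w ∈ e))).toFinset : Finset (Sym2 V)) :
          Set (Sym2 V)) := by
      ext e
      simp
    rw [h2, Set.ncard_coe_finset, List.toFinset_card_of_nodup (htrail.edges_nodup.filter _),
      ← List.countP_eq_length_filter]
    exact h1.2 (fun h => absurd rfl h)
  · simp only [Set.mem_ofPred_eq, hedges, List.mem_cons, List.mem_append, List.mem_nil_iff,
      or_false]
    constructor
    · rintro (h | h | h)
      · rw [Sym2.eq_iff] at h
        rcases h with h | h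
        · exact Or.inl h.2
        · exact absurd h.1 hx.ne
      · exact absurd h (hvpe _)
      · rw [Sym2.eq_iff] at h
        rcases h with h | h
        · exact absurd h.1 hy.ne
        · exact Or.inr h.2
    · rintro (rfl | rfl)
      · exact Or.inl rfl
      · exact Or.inr (Or.inr Sym2.eq_swap)

/-- A set of neighbours that meets every even set evenly is empty or everything. -/
theorem star_cut (G : SimpleGraph V) (v : V) (hpre : (G.induce ({v} : Set V)ᶜ).Preconnected)
    (X : Set V) (hX : ∀ x ∈ X, G.Adj v x)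
    (h : ∀ F, EvenSet G F → Even ({x | x ∈ X ∧ s(v, x) ∈ F} : Set V).ncard) :
    X = ∅ ∨ ∀ y, G.Adj v y → y ∈ X := by
  by_contra hcon
  push Not at hcon
  obtain ⟨⟨x, hx⟩, y, hy, hyX⟩ := hcon
  have hxy : x ≠ y := fun h => hyX (h ▸ hx)
  obtain ⟨F, hF, hFv⟩ := exists_even G v x y hpre (hX x hx) hy hxy
  have h1 := h F hF
  have h2 : ({z | z ∈ X ∧ s(v, z) ∈ F} : Set V) = {x} := by
    ext z
    simp only [Set.mem_ofPred_eq, Set.mem_singleton_iff, hFv]
    constructor
    · rintro ⟨hz, rfl | rfl⟩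
      · rfl
      · exact absurd hz hyX
    · rintro rfl
      exact ⟨hx, Or.inl rfl⟩
  rw [h2, Set.ncard_singleton] at h1
  exact absurd h1 (by decide)

/-! ### parity in the dual -/

theorem zmod_iff (a b : Prop) [Decidable a] [Decidable b] [Decidable (¬ (a ↔ b))] :
    (if ¬ (a ↔ b) then (1 : ZMod 2) else 0) = (if a then 1 else 0) + (if b then 1 else 0) := by
  by_cases ha : a <;> by_cases hb : b <;> simp [ha, hb]
  rfl

/-- if every dual vertex is an end of an even number of the edges `vx`, `x ∈ X`, then every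
even set contains an even number of them -/
theorem dual_parity [Finite V] (G : SimpleGraph V) {W : Type} [Finite W]
    (ends : Sym2 V → W × W) (hd : IsDual G ends) (v : V) (X : Set V)
    (hX : ∀ x ∈ X, G.Adj v x)
    (h : ∀ w, Even ({x | x ∈ X ∧ ¬ ((ends s(v, x)).1 = w ↔ (ends s(v, x)).2 = w)} :
      Set V).ncard) (F : Set (Sym2 V)) (hF : EvenSet G F) :
    Even ({x | x ∈ X ∧ s(v, x) ∈ F} : Set V).ncard := by
  classical
  have := Fintype.ofFinite V
  have := Fintype.ofFinite W
  obtain ⟨S, hS⟩ := (hd F).1 hF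
  have key : ∀ P : V → Prop, (({x | x ∈ X ∧ P x} : Set V).ncard : ZMod 2) =
      ∑ x ∈ Finset.univ.filter (fun x => x ∈ X), if P x then 1 else 0 := by
    intro P
    have h1 : ({x | x ∈ X ∧ P x} : Set V) =
        ((Finset.univ.filter (fun x => x ∈ X)).filter P : Finset V) := by
      ext x; simp
    rw [h1, Set.ncard_coe_finset, Finset.card_filter, Nat.cast_sum]
    exact Finset.sum_congr rfl fun x _ => by split_ifs <;> simp
  have hev : ∀ n : ℕ, Even n ↔ (n : ZMod 2) = 0 := fun n => by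
    rw [ZMod.natCast_eq_zero_iff_even]
  rw [hev, key]
  have h2 : ∀ w, (∑ x ∈ Finset.univ.filter (fun x => x ∈ X),
      ((if (ends s(v, x)).1 = w then (1 : ZMod 2) else 0) +
        (if (ends s(v, x)).2 = w then 1 else 0))) = 0 := by
    intro w
    have h3 := h w
    rw [hev, key] at h3
    refine Eq.trans ?_ h3
    refine Finset.sum_congr rfl fun x _ => ?_
    by_cases h5 : (ends s(v, x)).1 = w <;> by_cases h6 : (ends s(v, x)).2 = w <;> simp [h5, h6]
    rfl
  have h4 : ∀ x ∈ Finset.univ.filter (fun x => x ∈ X),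
      (if s(v, x) ∈ F then (1 : ZMod 2) else 0) =
        ∑ w ∈ Finset.univ.filter (fun w => w ∈ S),
          ((if (ends s(v, x)).1 = w then (1 : ZMod 2) else 0) +
            (if (ends s(v, x)).2 = w then 1 else 0)) := by
    intro x hx
    rw [Finset.mem_filter] at hx
    have h5 : s(v, x) ∈ F ↔ ¬ ((ends s(v, x)).1 ∈ S ↔ (ends s(v, x)).2 ∈ S) := by
      rw [hS]
      exact and_iff_right (hX x hx.2)
    rw [Finset.sum_add_distrib]
    simp only [Finset.sum_ite_eq, Finset.mem_filter, Finset.mem_univ, true_and]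
    rw [← zmod_iff]
    simp only [h5]
  rw [Finset.sum_congr rfl h4, Finset.sum_comm]
  exact Finset.sum_eq_zero fun w _ => h2 w

end StrongArb.H83
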